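import Pool.Agent.UL3.Stmts

set_option autoImplicit false

namespace Pool.Agent.UL3.H77

open MeasureTheory Set

theorem cr_add (a p q : ℝ × ℝ) : cr a (p + q) = cr a p + cr a q := by
  simp only [cr, Prod.fst_add, Prod.snd_add]; ring

theorem cr_sub (a p q : ℝ × ℝ) : cr a (p - q) = cr a p - cr a q := by
  simp only [cr, Prod.fst_sub, Prod.snd_sub]; ring

theorem cr_smul (a p : ℝ × ℝ) (s : ℝ) : cr a (s • p) = s * cr a p := by
  simp only [cr, Prod.smul_fst, Prod.smul_snd, smul_eq_mul]; ring

theorem cr_self (a : ℝ × ℝ) : cr a a = 0 := by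
  simp only [cr]; ring

theorem cr_cont (a : ℝ × ℝ) : Continuous (cr a) := by
  unfold cr; fun_prop

theorem neg_int {M : Set (ℝ × ℝ)} (h : PB M) {x : ℝ × ℝ} (hx : x ∈ interior M) :
    -x ∈ interior M := by
  rw [mem_interior] at hx ⊢
  obtain ⟨t, ht, hto, hxt⟩ := hx
  refine ⟨(fun y => -y) ⁻¹' t, ?_, hto.preimage continuous_neg, by simpa using hxt⟩
  intro y hy
  have := h.sym _ (ht hy)
  simpa using this

theorem paa : PaaStmt := by
  classical
  intro M h a haM hai
  have h0 : (0 : ℝ × ℝ) ∈ interior M := h.zero_mem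
  have h0M : (0 : ℝ × ℝ) ∈ M := interior_subset h0
  have ha0 : a ≠ 0 := fun he => hai (he ▸ h0)
  have haa : 0 < a.1 * a.1 + a.2 * a.2 := by
    rcases lt_or_eq_of_le (add_nonneg (mul_self_nonneg a.1) (mul_self_nonneg a.2)) with hh | hh
    · exact hh
    · exfalso
      apply ha0
      have h1 : a.1 * a.1 = 0 := by nlinarith [mul_self_nonneg a.1, mul_self_nonneg a.2]
      have h2 : a.2 * a.2 = 0 := by nlinarith [mul_self_nonneg a.1, mul_self_nonneg a.2]
      exact Prod.ext (mul_self_eq_zero.mp h1) (mul_self_eq_zero.mp h2)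
  set w : ℝ × ℝ := (-a.2, a.1) with hw
  have hcw : 0 < cr a w := by
    simp only [cr, hw]; nlinarith
  -- moving a little in direction w
  have hmove : ∀ p ∈ interior M, ∀ q ∈ interior M, ∃ e : ℝ, 0 < e ∧ p + e • w ∈ interior M ∧
      q + e • w ∈ interior M := by
    intro p hp q hq
    have hc : ∀ z : ℝ × ℝ, Filter.Tendsto (fun e : ℝ => z + e • w) (nhds 0) (nhds z) := by
      intro z
      have : Continuous (fun e : ℝ => z + e • w) := by fun_prop
      simpa using this.tendsto 0
    have h1 : ∀ᶠ e in nhds (0 : ℝ), p + e • w ∈ interior M :=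
      (hc p).eventually (isOpen_interior.mem_nhds hp)
    have h2 : ∀ᶠ e in nhds (0 : ℝ), q + e • w ∈ interior M :=
      (hc q).eventually (isOpen_interior.mem_nhds hq)
    have h3 := (h1.and h2).filter_mono (nhdsWithin_le_nhds (s := Ioi (0 : ℝ)))
    obtain ⟨e, ⟨he1, he2⟩, he3⟩ := (h3.and self_mem_nhdsWithin).exists
    exact ⟨e, he3, he1, he2⟩
  -- the half points
  have hhalf : ∀ x ∈ M, (1 / 2 : ℝ) • x ∈ interior M := by
    intro x hx
    have := h.cvx.combo_interior_self_mem_interior h0 hx (a := 1 / 2) (b := 1 / 2)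
      (by norm_num) (by norm_num) (by norm_num)
    simpa using this
  -- the compact set
  have hScomp : IsCompact {p : ℝ × ℝ | p ∈ M ∧ p - a ∈ M} := by
    have hcl : IsClosed {p : ℝ × ℝ | p - a ∈ M} :=
      h.cpt.isClosed.preimage (by fun_prop : Continuous fun p : ℝ × ℝ => p - a)
    exact h.cpt.inter_right hcl
  obtain ⟨b0, hb0, hmax⟩ := hScomp.exists_isMaxOn ⟨a, haM, by simpa using h0M⟩
    (cr_cont a).continuousOn
  have hmax' : ∀ p ∈ M, p - a ∈ M → cr a p ≤ cr a b0 := fun p h1 h2 => hmax ⟨h1, h2⟩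
  -- key
  have key : ∀ p ∈ interior M, p - a ∈ interior M → cr a p < cr a b0 := by
    intro p hp hpa
    obtain ⟨e, he, h1, h2⟩ := hmove p hp _ hpa
    have h3 := hmax' (p + e • w) (interior_subset h1) (by
      have : p + e • w - a = p - a + e • w := by abel
      rw [this]; exact interior_subset h2)
    rw [cr_add, cr_smul] at h3
    have : 0 < e * cr a w := mul_pos he hcw
    linarith
  have hτ : 0 < cr a b0 := by
    have h1 := hhalf a haM
    have h2 : (1 / 2 : ℝ) • a - a ∈ interior M := by
      have := hhalf (-a) (h.sym a haM)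
      have e1 : (1 / 2 : ℝ) • a - a = (1 / 2 : ℝ) • (-a) := by module
      rw [e1]; exact this
    have := key _ h1 h2
    rw [cr_smul, cr_self] at this
    linarith
  -- the last point on the line
  have hLcomp : IsCompact (M ∩ {p : ℝ × ℝ | cr a p = cr a b0}) :=
    h.cpt.inter_right (isClosed_eq (cr_cont a) continuous_const)
  obtain ⟨b, ⟨hbM, hbτ⟩, hbmax⟩ := hLcomp.exists_isMaxOn ⟨b0, hb0.1, rfl⟩
    (f := fun p : ℝ × ℝ => a.1 * p.1 + a.2 * p.2) (by fun_prop)
  have hbτ' : cr a b = cr a b0 := hbτ
  have hbmax' : ∀ p ∈ M, cr a p = cr a b0 → a.1 * p.1 + a.2 * p.2 ≤ a.1 * b.1 + a.2 * b.2 :=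
    fun p h1 h2 => hbmax ⟨h1, h2⟩
  have hnot : ∀ s : ℝ, 0 < s → b + s • a ∉ M := by
    intro s hs hm
    have := hbmax' _ hm (by rw [cr_add, cr_smul, cr_self, hbτ']; ring)
    simp only [Prod.fst_add, Prod.snd_add, Prod.smul_fst, Prod.smul_snd, smul_eq_mul] at this
    have h2 : 0 < s * (a.1 * a.1 + a.2 * a.2) := mul_pos hs haa
    nlinarith
  -- b - a is in M
  obtain ⟨s, hs0, hs⟩ : ∃ s : ℝ, 0 ≤ s ∧ b0 = b - s • a := by
    have hne := haa.ne'
    obtain ⟨s, hsN⟩ : ∃ s : ℝ, s * (a.1 * a.1 + a.2 * a.2) =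
        (a.1 * b.1 + a.2 * b.2) - (a.1 * b0.1 + a.2 * b0.2) :=
      ⟨((a.1 * b.1 + a.2 * b.2) - (a.1 * b0.1 + a.2 * b0.2)) / (a.1 * a.1 + a.2 * a.2),
        div_mul_cancel₀ _ hne⟩
    have hle := hbmax' b0 hb0.1 rfl
    refine ⟨s, ?_, ?_⟩
    · by_contra hneg
      push Not at hneg
      have := mul_neg_of_neg_of_pos hneg haa
      linarith
    · have hc : a.1 * b.2 - a.2 * b.1 = a.1 * b0.2 - a.2 * b0.1 := hbτ'
      refine Prod.ext ?_ ?_
      · simp only [Prod.fst_sub, Prod.smul_fst, smul_eq_mul]
        apply mul_left_cancel₀ hne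
        linear_combination a.2 * hc + a.1 * hsN
      · simp only [Prod.snd_sub, Prod.smul_snd, smul_eq_mul]
        apply mul_left_cancel₀ hne
        linear_combination (-a.1) * hc + a.2 * hsN
  have hbaM : b - a ∈ M := by
    have h1 : b - (s + 1) • a ∈ M := by
      have := hb0.2
      rw [hs] at this
      have e : b - s • a - a = b - (s + 1) • a := by module
      rwa [e] at this
    have h2 := h.cvx h1 hbM (a := 1 / (s + 1)) (b := s / (s + 1)) (by positivity) (by positivity)
      (by field_simp; ring)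
    have e : (1 / (s + 1)) • (b - (s + 1) • a) + (s / (s + 1)) • b = b - a := by
      have hs1 : s + 1 ≠ 0 := by positivity
      refine Prod.ext ?_ ?_
      · simp only [Prod.fst_add, Prod.fst_sub, Prod.smul_fst, smul_eq_mul]
        field_simp; ring
      · simp only [Prod.snd_add, Prod.snd_sub, Prod.smul_snd, smul_eq_mul]
        field_simp; ring
    rwa [e] at h2
  -- n = 1
  have hone : ∀ m : ℤ, b + (m : ℝ) • a ∉ interior M := by
    intro m hm
    rcases lt_trichotomy m 0 with hm0 | hm0 | hm0
    · -- b - a is interior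
      have hm1 : (1 : ℝ) ≤ -(m : ℝ) := by
        have : (m : ℝ) ≤ -1 := by exact_mod_cast (by omega : m ≤ -1)
        linarith
      have hk : 0 < -(m : ℝ) := by linarith
      have hint : b - a ∈ interior M := by
        have h2 := h.cvx.combo_interior_self_mem_interior hm hbM (a := 1 / (-(m : ℝ)))
          (b := 1 - 1 / (-(m : ℝ))) (by positivity) (by
            rw [sub_nonneg, div_le_one hk]; exact hm1) (by ring)
        have e : (1 / (-(m : ℝ))) • (b + (m : ℝ) • a) + (1 - 1 / (-(m : ℝ))) • b = b - a := by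
          have hmne : (m : ℝ) ≠ 0 := by
            intro hh; rw [hh] at hk; simp at hk
          refine Prod.ext ?_ ?_
          · simp only [Prod.fst_add, Prod.fst_sub, Prod.smul_fst, smul_eq_mul]
            field_simp; ring
          · simp only [Prod.snd_add, Prod.snd_sub, Prod.smul_snd, smul_eq_mul]
            field_simp; ring
        rwa [e] at h2
      -- b - d a, b - a - d a interior
      have hc : Filter.Tendsto (fun e : ℝ => b - a - e • a) (nhds 0) (nhds (b - a)) := by
        have : Continuous (fun e : ℝ => b - a - e • a) := by fun_prop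
        simpa using this.tendsto 0
      have h1 : ∀ᶠ e in nhds (0 : ℝ), b - a - e • a ∈ interior M :=
        hc.eventually (isOpen_interior.mem_nhds hint)
      have h2 : ∀ᶠ e in nhds (0 : ℝ), e < 1 := Iio_mem_nhds one_pos
      have h3 := (h1.and h2).filter_mono (nhdsWithin_le_nhds (s := Ioi (0 : ℝ)))
      obtain ⟨d, ⟨hd1, hd2⟩, hd3⟩ := (h3.and self_mem_nhdsWithin).exists
      have hd3' : 0 < d := hd3
      have h4 : b - d • a ∈ interior M := by
        have h5 := h.cvx.combo_interior_self_mem_interior hint hbM (a := d) (b := 1 - d) hd3'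
          (by linarith) (by ring)
        have e : d • (b - a) + (1 - d) • b = b - d • a := by module
        rwa [e] at h5
      have h5 : b - d • a - a ∈ interior M := by
        have e : b - d • a - a = b - a - d • a := by abel
        rw [e]; exact hd1
      have h6 := key _ h4 h5
      rw [cr_sub, cr_smul, cr_self, hbτ'] at h6
      linarith
    · subst hm0
      have hb : b ∈ interior M := by simpa using hm
      have hc : Filter.Tendsto (fun e : ℝ => b + e • a) (nhds 0) (nhds b) := by
        have : Continuous (fun e : ℝ => b + e • a) := by fun_prop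
        simpa using this.tendsto 0
      have h1 : ∀ᶠ e in nhds (0 : ℝ), b + e • a ∈ interior M :=
        hc.eventually (isOpen_interior.mem_nhds hb)
      have h3 := h1.filter_mono (nhdsWithin_le_nhds (s := Ioi (0 : ℝ)))
      obtain ⟨d, hd1, hd3⟩ := (h3.and self_mem_nhdsWithin).exists
      exact hnot d hd3 (interior_subset hd1)
    · exact hnot m (by exact_mod_cast hm0) (interior_subset hm)
  -- positive n
  have hpos : ∀ m n : ℤ, 0 < n → (m : ℝ) • a + (n : ℝ) • b ∉ interior M := by
    intro m n hn hm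
    rcases eq_or_lt_of_le (by omega : (1 : ℤ) ≤ n) with h1 | h1
    · subst h1
      apply hone m
      have e : b + (m : ℝ) • a = (m : ℝ) • a + ((1 : ℤ) : ℝ) • b := by push_cast; module
      rw [e]; exact hm
    · have hn2 : (2 : ℝ) ≤ (n : ℝ) := by exact_mod_cast (by omega : (2 : ℤ) ≤ n)
      have hn0 : (0 : ℝ) < n := by linarith
      set p : ℝ × ℝ := (2 / (n : ℝ)) • ((m : ℝ) • a + (n : ℝ) • b) with hp
      have hpi : p ∈ interior M := by
        have h2 := h.cvx.combo_interior_self_mem_interior hm h0M (a := 2 / (n : ℝ))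
          (b := 1 - 2 / (n : ℝ)) (by positivity) (by
            rw [sub_nonneg, div_le_one hn0]; exact hn2) (by ring)
        simpa [hp] using h2
      have hcp : cr a p = 2 * cr a b0 := by
        rw [hp, cr_smul, cr_add, cr_smul, cr_smul, cr_self, hbτ']
        field_simp
        ring
      have hq : (1 / 2 : ℝ) • p + (1 / 2 : ℝ) • a ∈ interior M :=
        h.cvx.combo_interior_self_mem_interior hpi haM (by norm_num) (by norm_num) (by norm_num)
      have hq2 : (1 / 2 : ℝ) • p + (1 / 2 : ℝ) • a - a ∈ interior M := by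
        have h2 := h.cvx.combo_interior_self_mem_interior hpi (h.sym a haM) (a := 1 / 2)
          (b := 1 / 2) (by norm_num) (by norm_num) (by norm_num)
        have e : (1 / 2 : ℝ) • p + (1 / 2 : ℝ) • a - a = (1 / 2 : ℝ) • p + (1 / 2 : ℝ) • -a := by
          module
        rw [e]; exact h2
      have h3 := key _ hq hq2
      rw [cr_add, cr_smul a p, cr_smul a a, cr_self, hcp] at h3
      linarith
  refine ⟨b, hbM, hbaM, ?_, by rw [hbτ']; exact hτ⟩
  intro m n hmn hm
  rcases lt_trichotomy n 0 with hn | hn | hn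
  · apply hpos (-m) (-n) (by omega)
    have h2 := neg_int h hm
    have e : -((m : ℝ) • a + (n : ℝ) • b) = ((-m : ℤ) : ℝ) • a + ((-n : ℤ) : ℝ) • b := by
      push_cast; module
    rwa [e] at h2
  · subst hn
    have hm0 : m ≠ 0 := by
      rcases hmn with h1 | h1
      · exact h1
      · exact absurd rfl h1
    have hma : ∀ k : ℤ, 0 < k → (k : ℝ) • a ∉ interior M := by
      intro k hk hka
      have hk1 : (1 : ℝ) ≤ (k : ℝ) := by exact_mod_cast hk
      have hk0 : (0 : ℝ) < k := by linarith
      apply hai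
      have h2 := h.cvx.combo_interior_self_mem_interior hka h0M (a := 1 / (k : ℝ))
        (b := 1 - 1 / (k : ℝ)) (by positivity) (by
          rw [sub_nonneg, div_le_one hk0]; exact hk1) (by ring)
      have e : (1 / (k : ℝ)) • ((k : ℝ) • a) + (1 - 1 / (k : ℝ)) • (0 : ℝ × ℝ) = a := by
        rw [smul_zero, add_zero, smul_smul, one_div, inv_mul_cancel₀ hk0.ne', one_smul]
      rwa [e] at h2
    rcases lt_or_gt_of_ne hm0 with h1 | h1
    · apply hma (-m) (by omega)
      have h2 := neg_int h hm
      have e : -((m : ℝ) • a + ((0 : ℤ) : ℝ) • b) = ((-m : ℤ) : ℝ) • a := by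
        push_cast; module
      rwa [e] at h2
    · apply hma m h1
      have e : (m : ℝ) • a + ((0 : ℤ) : ℝ) • b = (m : ℝ) • a := by
        push_cast; module
      rwa [e] at hm
  · exact hpos m n hn hm

end Pool.Agent.UL3.H77
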